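import Pool.Agent.MP_c69980_ag.H43.Spec8

/-!
The prime divisors of a smooth model along which the invariant logarithmic form does not vanish.
-/

set_option autoImplicit false

namespace Pool.Agent.MP_c69980_ag.H43

open MvPolynomial H60 Finset

section Aux
variable {K : Type} [Field K]

/-- Cramer's rule over a valuation ring. -/
lemma wCramer (V : ValuationSubring K) {m : ℕ} (A : Matrix (Fin m) (Fin m) K)
    (hA : ∀ l j, A l j ∈ V) (hd : V.valuation A.det = 1) (v : Fin m → K)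
    (hv : ∀ l, ∑ j, A l j * v j ∈ V) (j : Fin m) : v j ∈ V := by
  have d0 : A.det ≠ 0 := fun e => by simp [e] at hd
  have e : A.cramer (A.mulVec v) = A.det • v := by
    rw [Matrix.cramer_eq_adjugate_mulVec, Matrix.mulVec_mulVec, Matrix.adjugate_mul,
      Matrix.smul_mulVec, Matrix.one_mulVec]
  have e2 : v j = A.det⁻¹ * (A.updateCol j (A.mulVec v)).det := by
    rw [← Matrix.cramer_apply, e, Pi.smul_apply, smul_eq_mul, inv_mul_cancel_left₀ d0]
  rw [e2]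
  refine mul_mem ((V.valuation_le_one_iff _).1 (by simp [hd])) (det_mem V.toSubring _ fun a b => ?_)
  rw [Matrix.updateCol_apply]
  split_ifs
  · exact hv a
  · exact hA a b

/-- Bounded pole orders. -/
lemma wPow (V : ValuationSubring K) [IsDiscreteValuationRing V] (f : K) :
    ∃ N : ℕ, ∀ q, V.valuation q < 1 → ∀ N', N ≤ N' → q ^ N' * f ∈ V := by
  obtain ⟨⟨p, p'⟩, hp⟩ := IsLocalization.surj (nonZeroDivisors V) f
  obtain ⟨π, hπ⟩ := IsDiscreteValuationRing.exists_irreducible V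
  obtain ⟨N, v, hv⟩ := IsDiscreteValuationRing.eq_unit_mul_pow_irreducible
    (nonZeroDivisors.ne_zero p'.2) hπ
  refine ⟨N, fun q hq N' hN => ?_⟩
  have q1 : q ∈ V := (V.valuation_le_one_iff _).1 hq.le
  obtain ⟨c, hc⟩ : p'.1 ∣ (⟨q, q1⟩ : V) ^ N' := by
    rw [hv, Units.mul_left_dvd]
    refine pow_dvd_pow_of_dvd_of_le (Ideal.mem_span_singleton.1 ?_) hN
    rw [← hπ.maximalIdeal_eq]
    exact (V.valuation_lt_one_iff _).2 hq
  have e : q ^ N' = (p'.1 : K) * c := congrArg Subtype.val hc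
  rw [e, mul_right_comm, mul_comm (p'.1 : K) f]
  exact mul_mem (by rw [show f * (p'.1 : K) = p from hp]; exact p.2) c.2

lemma wUnit {V : ValuationSubring K} {f : K} (h0 : f ≠ 0) (h1 : f ∈ V) (h2 : f⁻¹ ∈ V) :
    V.valuation f = 1 := by
  refine le_antisymm ((V.valuation_le_one_iff _).2 h1) ?_
  have := (V.valuation_le_one_iff _).2 h2
  rwa [map_inv₀, inv_le_one₀ (by simpa [zero_lt_iff] using h0)] at this

variable [Algebra ℂ K]

lemma wSum {κ : Type*} [Fintype κ] (G : κ → Derivation ℂ K K) (g : K) :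
    (∑ i, G i) g = ∑ i, G i g := by
  have := congrFun (map_sum Derivation.coeFnAddMonoidHom G Finset.univ) g
  rwa [Finset.sum_apply] at this

/-- The change of basis between `E` and the logarithmic vector fields. -/
lemma wMat {O : Subalgebra ℂ K} {m : ℕ} {s : Fin m → O} {d E : Fin m → Derivation ℂ K K}
    (hd : Dual O s d) (hE : LinearIndependent K E) (r : Finset (Fin m)) :
    ∃ A : Matrix (Fin m) (Fin m) K,
      A.det * (Matrix.of fun i l => E i (s l)).det = ∏ j ∈ r, (s j : K) ∧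
      ∀ l f, (if l ∈ r then (s l : K) else 1) * d l f = ∑ j, A l j * E j f := by
  classical
  set B : Matrix (Fin m) (Fin m) K := Matrix.of fun i l => E i (s l) with hB
  have b0 : B.det ≠ 0 := fun h0 => by
    obtain ⟨a, ha, h1⟩ := Matrix.exists_vecMul_eq_zero_iff.2 h0
    refine ha (funext (Fintype.linearIndependent_iff.1 hE a ?_))
    ext f
    rw [hd.span _ f]
    refine sum_eq_zero fun l _ => mul_eq_zero_of_left ?_ _
    rw [wSum]
    simpa [Matrix.vecMul, dotProduct, hB] using congrFun h1 l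
  refine ⟨Matrix.diagonal (fun l => if l ∈ r then (s l : K) else 1) * B⁻¹, ?_, fun l f => ?_⟩
  · rw [← Matrix.det_mul, Matrix.nonsing_inv_mul_cancel_right _ _ (Ne.isUnit b0),
      Matrix.det_diagonal, prod_ite_mem, univ_inter]
  · have e : (fun j => E j f) = B.mulVec fun l => d l f := funext fun j => hd.span (E j) f
    change _ = Matrix.mulVec _ (fun j => E j f) l
    rw [e, Matrix.mulVec_mulVec, Matrix.nonsing_inv_mul_cancel_right _ _ (Ne.isUnit b0),
      Matrix.mulVec_diagonal]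

/-- Velocities of logarithmic vector fields. -/
lemma wVel {t a M m : ℕ} {w : Fin M → Option (Fin t)} {Θ : Pt t a → Fin M → ℂ} {PP : PT M t a}
    {u : Fin M → K} {J : Fin m → Fin (t + a)} {γ : Fin m → Fin (t + a) → K}
    {E : Fin m → Derivation ℂ K K} (gk : GKval w Θ PP) (hu : OnG w Θ u) (tk : TK w PP u J γ E)
    (V : ValuationSubring K) (hC : ∀ c, algebraMap ℂ K c ∈ V) (A : Fin m → K)
    (h1 : ∀ f ∈ V, ∑ j, A j * E j f ∈ V)
    (h2 : (∀ o, ∃ b, w b = o ∧ u b ≠ 0 ∧ ∀ c, u c / u b ∈ V) ∨ ∀ f, (∑ j, A j * E j f) / f ∈ V)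
    (i : Fin (t + a)) : ∑ j, A j * γ j i ∈ V := by
  have e : ∀ f, (∑ j, A j • E j) f = ∑ j, A j * E j f := fun f => by rw [wSum]; rfl
  obtain ⟨β, b1, b2, b3⟩ : ∃ β, Ch w β u ∧ (∀ x, xc w β u x ∈ V) ∧
      ∀ o, (∑ j, A j * E j (eta β u o)) / eta β u o ∈ V := by
    rcases h2 with h | h
    · choose β c1 c2 c3 using h
      refine ⟨β, fun o => ⟨c1 o, c2 o⟩, fun x => c3 _ _, fun o => ?_⟩
      rw [div_eq_mul_inv]
      refine mul_mem (h1 _ (c3 _ _)) ?_
      rw [eta, inv_div]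
      exact c3 _ _
    · have : ∀ o, ∃ b, w b = o ∧ u b ≠ 0 ∧ ∀ c, w c = o → u c / u b ∈ V := fun o => by
        obtain ⟨b, c1, c2⟩ := hu.blk o
        obtain ⟨b', d1, d2⟩ := exists_max_image (univ.filter fun c => w c = o)
          (fun c => V.valuation (u c)) ⟨b, by simpa using c1⟩
        refine ⟨b', by simpa using d1, fun e => c2 ?_, fun c hc => ?_⟩
        · simpa [e] using d2 b (by simpa using c1)
        · rw [← V.valuation_le_one_iff, map_div₀]
          exact div_le_one_of_le₀ (d2 c (by simpa using hc)) zero_le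
      choose β c1 c2 c3 using this
      exact ⟨β, fun o => ⟨c1 o, c2 o⟩, fun x => c3 _ _ rfl, fun o => h _⟩
  refine gk K u (∑ j, A j • E j) (fun i => ∑ j, A j * γ j i) β V hu hC b1 (fun β' hβ x => ?_) b2
    (fun x => e _ ▸ h1 _ (b2 x)) (fun o => e _ ▸ b3 o) i
  simp only [e, tk.act β' hβ, vf, mul_sum, sum_mul, mul_assoc]
  exact sum_comm

variable {n : ℕ} {W : Set (PS n)} {z : Fin n → K} {x : PS n}

lemma wZero (hz : GenPt W z) (hx : x ∈ W) (G : PR n) (d : ℕ) (hG : G.IsHomogeneous d)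
    (h : aeval z G = 0) : eval x.rep G = 0 := (hz.1 G d hG).1 h x hx

lemma wNe (hs : ∀ (G : PR n) (d : ℕ), G.IsHomogeneous d → aeval z G = 0 → eval x.rep G = 0)
    {i : Fin n} (hi : x.rep i ≠ 0) : z i ≠ 0 := fun h =>
  hi (by simpa using hs (X i) 1 (isHomogeneous_X _ _) (by simpa))

lemma wMem {i : Fin n} (hi : x.rep i ≠ 0) {F : PR n} {d : ℕ} (hF : F.IsHomogeneous d) :
    aeval z F / z i ^ d ∈ locRing z x :=
  Algebra.subset_adjoin ⟨F, X i ^ d, d, hF, isHomogeneous_X_pow i d,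
    by simpa using fun h => absurd h hi, by simp⟩

lemma wMem1 {i : Fin n} (hi : x.rep i ≠ 0) (j : Fin n) : z j / z i ∈ locRing z x := by
  simpa using wMem (z := z) hi (isHomogeneous_X ℂ j)

lemma wInv (i : Fin n) {F : PR n} {d : ℕ} (hF : F.IsHomogeneous d) (h : eval x.rep F ≠ 0) :
    (aeval z F / z i ^ d)⁻¹ ∈ locRing z x :=
  Algebra.subset_adjoin ⟨X i ^ d, F, d, isHomogeneous_X_pow i d, hF, h, by simp⟩

/-- Points of the centre of a valuation ring near a given one. -/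
lemma wCentre (hW : IsZClosed W) (hz : GenPt W z) (hx : x ∈ W) (V : ValuationSubring K)
    (hV : ∀ f ∈ locRing z x, f ∈ V) {g : PR n} {e : ℕ} (hg : g.IsHomogeneous e)
    (g0 : eval x.rep g ≠ 0) {f : K} (hf : f ∈ locRing z x) (f1 : V.valuation f = 1) :
    ∃ y ∈ W, (∀ f ∈ locRing z y, f ∈ V) ∧ eval y.rep g ≠ 0 ∧ f⁻¹ ∈ locRing z y := by
  obtain ⟨i, hi⟩ : ∃ i, x.rep i ≠ 0 := Function.ne_iff.1 x.rep_nonzero
  have zi := wNe (wZero hz hx) hi
  obtain ⟨P, ⟨x₀, h₀⟩, hP, hP2⟩ := centre2 (AlgHom.id ℂ K) V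
    (fun c => hV _ (algebraMap_mem _ c)) z (Function.ne_iff.2 ⟨i, zi⟩)
  simp only [AlgHom.id_apply] at hP hP2
  obtain ⟨j, hj⟩ : ∃ j, x₀.rep j ≠ 0 := Function.ne_iff.1 x₀.rep_nonzero
  have zj := wNe (hP _ h₀).1 hj
  obtain ⟨A, B, d, hA, hB, B0, rfl⟩ := (mem_locRing (wZero hz hx) f).1 hf
  have hun : ∀ {F : PR n} {d : ℕ}, F.IsHomogeneous d → eval x.rep F ≠ 0 →
      V.valuation (aeval z F) = V.valuation (z j) ^ d := fun {F d} hF h => by
    have a1 := wUnit (div_ne_zero (fun e => h (wZero hz hx F d hF e)) (pow_ne_zero d zi))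
      (hV _ (wMem hi hF)) (hV _ (wInv i hF h))
    have a2 := wUnit (div_ne_zero zj zi) (hV _ (wMem1 hi j))
      (by rw [inv_div]; exact (hP _ h₀).2 _ (wMem1 hj i))
    rw [map_div₀, div_eq_one_iff_eq (by simpa using fun h => absurd h zi)] at a1
    rw [map_div₀, div_eq_one_iff_eq (by simpa using zi)] at a2
    rw [a1, a2, map_pow]
  have a3 : V.valuation (aeval z (A * g) / z j ^ (d + e)) = 1 := by
    rw [map_div₀, div_eq_one_iff_eq (by simpa using fun e => B0 (wZero hz hx B d hB e))] at f1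
    rw [map_div₀, map_mul, map_mul, f1, hun hB B0, hun hg g0, map_pow, ← pow_add, div_self]
    simpa using fun h => absurd h zj
  obtain ⟨y, y1, y2, y3⟩ := hP2 x₀ h₀ n _ (wMem1 hj) _ (wMem hj (hA.mul hg)) a3
  have a4 := eval_ne_of_dom (hP y y1).1 _ (fun _ _ h => h) (hA.mul hg)
    (fun e => by simp [e] at a3) zj y2 y3
  rw [map_mul, mul_ne_zero_iff] at a4
  refine ⟨y, ?_, (hP y y1).2, a4.2,
    Algebra.subset_adjoin ⟨B, A, d, hB, hA, a4.1, inv_div _ _⟩⟩
  obtain ⟨S, hS, rfl⟩ := hW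
  intro F hF
  obtain ⟨d, hd⟩ := hS F hF
  exact (hP y y1).1 F d hd ((hz.1 F d hd).2 fun P hP => hP F hF)

lemma wCen (hU : IsVar W) (hz : GenPt W z) (hx : x ∈ W) (V : ValuationSubring K)
    (hV : ∀ f ∈ locRing z x, f ∈ V) : Cen W z V := by
  obtain ⟨j, hj⟩ : ∃ j, x.rep j ≠ 0 := Function.ne_iff.1 x.rep_nonzero
  have zj := wNe (wZero hz hx) hj
  have h0 := wZero hz hx
  obtain ⟨-, Z, _, hZ, ⟨S, hS, rfl⟩, rfl⟩ := hU
  obtain ⟨H, h1, h2⟩ : ∃ H ∈ S, eval x.rep H ≠ 0 := by simpa using hx.2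
  obtain ⟨d, hd⟩ := hS H h1
  exact ⟨H, d, j, hd, zj, fun i => hV _ (wMem1 hj i),
    wUnit (div_ne_zero (fun e => h2 (h0 H d hd e)) (pow_ne_zero d zj)) (hV _ (wMem hj hd))
      (hV _ (wInv j hd h2)), fun y hy h => ⟨hy Z ⟨hZ, Set.sdiff_subset⟩, fun e => h (e H h1)⟩⟩

lemma wTop (hz : GenPt W z) {i : Fin n} (hi : z i ≠ 0) :
    IntermediateField.adjoin ℂ (Set.range fun j => z j / z i) = ⊤ := by
  rw [eq_top_iff, ← hz.2, IntermediateField.adjoin_le_iff]
  rintro _ ⟨a, b, rfl⟩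
  rw [← div_div_div_cancel_right₀ hi]
  exact div_mem (IntermediateField.subset_adjoin _ _ ⟨a, rfl⟩)
    (IntermediateField.subset_adjoin _ _ ⟨b, rfl⟩)

/-- The affine chart and its finite projection. -/
structure WY (z : Fin n → K) (i : Fin n) {r : ℕ} (y : Fin (r + 1) → K) : Prop where
  mem : ∀ l, y l ∈ Algebra.adjoin ℂ (Set.range fun j => z j / z i)
  int : ∀ j, z j / z i ∈ IC ℂ y
  noe : Noe ℂ y

lemma wY (h3 : SNoe) (hz : GenPt W z) {r : ℕ} (hr : Algebra.trdeg ℂ K = (r + 1 : ℕ)) (i : Fin n) :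
    ∃ y : Fin (r + 1) → K, z i ≠ 0 → WY z i y := by
  classical
  by_cases hi : z i = 0
  · exact ⟨0, fun h => absurd hi h⟩
  obtain ⟨y, h⟩ := h3 ℂ K _ (fun j => z j / z i) r
    (by rw [wTop hz hi]; exact ⟨fun x => isAlgebraic_algebraMap (⟨x, trivial⟩ : (⊤ :
      IntermediateField ℂ K))⟩) ⟨univ.image fun j => z j / z i, by simpa using wTop hz hi⟩ hr
  exact ⟨y, fun _ => ⟨h.1, h.2.1, h.2.2⟩⟩

variable {r : ℕ} {y : Fin (r + 1) → K} {i : Fin n}

lemma wIC {V : ValuationSubring K} (hV : Dv ℂ y V) {f : K} (hf : f ∈ IC ℂ y) : f ∈ V :=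
  val_int V (fun c : Algebra.adjoin ℂ (Set.range y) => by
    obtain ⟨c, hc⟩ := c
    rw [Algebra.adjoin_range_eq_range_aeval] at hc
    obtain ⟨P, rfl⟩ := hc
    exact hV.1 P) hf

lemma WY.form (h : WY z i y) {V : ValuationSubring K} (hV : Dv ℂ y V) {F : PR n} {d : ℕ}
    (hF : F.IsHomogeneous d) : aeval z F / z i ^ d ∈ V := by
  have e : aeval z F / z i ^ d = aeval (fun j => z j / z i) F := by
    simp only [div_eq_inv_mul, aeval_scale hF, inv_pow]
  rw [e]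
  clear e hF
  induction F using MvPolynomial.induction_on with
  | C c => simpa using hV.1 (C c)
  | add p q hp hq => rw [map_add]; exact add_mem hp hq
  | mul_X p j hp => rw [map_mul, aeval_X]; exact mul_mem hp (wIC hV (h.int j))

lemma WY.le (h : WY z i y) (h2 : SNorm) (hz : GenPt W z) (hx : x ∈ W) (hi : x.rep i ≠ 0)
    [IsRegularLocalRing (locRing z x)] {k : ℕ} {s : Fin k → locRing z x}
    {d : Fin k → Derivation ℂ K K} (hd : Dual _ s d) (hs : (Ideal.span (Set.range s)).IsMaximal)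
    (f : K) (hf : f ∈ IC ℂ y) : f ∈ locRing z x := by
  have a1 : Algebra.adjoin ℂ (Set.range fun j => z j / z i) ≤ locRing z x :=
    Algebra.adjoin_le (by rintro _ ⟨j, rfl⟩; exact wMem1 hi j)
  have a2 : Algebra.adjoin ℂ (Set.range y) ≤ locRing z x :=
    Algebra.adjoin_le (by rintro _ ⟨j, rfl⟩; exact a1 (h.mem j))
  refine h2 K _ k s d hd hs.ne_top (fun g => ?_) f
    (IsIntegral.map_of_comp_eq (Subalgebra.inclusion a2).toRingHom (RingHom.id K) rfl hf)
  obtain ⟨p, hp, q, hq, rfl⟩ := IntermediateField.mem_adjoin_iff_div.1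
    (show g ∈ IntermediateField.adjoin ℂ (Set.range fun j => z j / z i) by
      rw [wTop hz (wNe (wZero hz hx) hi)]; trivial)
  by_cases q0 : q = 0
  · exact ⟨0, zero_mem _, 1, one_mem _, one_ne_zero, by simp [q0]⟩
  · exact ⟨p, a1 hp, q, a1 hq, q0, div_mul_cancel₀ _ q0⟩

/-- A function without poles along the prime divisors through `x` is regular at `x`. -/
lemma WY.reg (h : WY z i y) (hz : GenPt W z) (hx : x ∈ W) (hi : x.rep i ≠ 0)
    (hI : ∀ f ∈ IC ℂ y, f ∈ locRing z x) (f : K)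
    (hf : ∀ V, Dv ℂ y V → (∀ g ∈ locRing z x, g ∈ V) → f ∈ V) : f ∈ locRing z x := by
  classical
  have zi := wNe (wZero hz hx) hi
  have : ∀ V, ∃ b : K, b ≠ 0 ∧ b⁻¹ ∈ locRing z x ∧ (∀ V', Dv ℂ y V' → b ∈ V') ∧
      (Dv ℂ y V → b * f ∈ V) := fun V => by
    by_cases hV : Dv ℂ y V ∧ f ∉ V
    · obtain ⟨g, g1, g2⟩ : ∃ g ∈ locRing z x, g ∉ V := by
        by_contra hn
        push Not at hn
        exact hV.2 (hf V hV.1 hn)
      obtain ⟨A, B, d, hA, hB, B0, rfl⟩ := (mem_locRing (wZero hz hx) g).1 g1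
      have := h.noe.dvr V hV.1
      obtain ⟨N, hN⟩ := wPow V f
      have b0 : aeval z B / z i ^ d ≠ 0 :=
        div_ne_zero (fun e => B0 (wZero hz hx B d hB e)) (pow_ne_zero d zi)
      refine ⟨(aeval z B / z i ^ d) ^ N, pow_ne_zero _ b0, ?_,
        fun V' h' => pow_mem (h.form h' hB) N, fun _ => hN _ ?_ N le_rfl⟩
      · rw [← inv_pow]; exact pow_mem (wInv i hB B0) N
      · refine lt_of_le_of_ne ((V.valuation_le_one_iff _).2 (h.form hV.1 hB)) fun e => g2 ?_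
        rw [← div_div_div_cancel_right₀ (pow_ne_zero d zi), ← V.valuation_le_one_iff, map_div₀, e,
          div_one, V.valuation_le_one_iff]
        exact h.form hV.1 hA
    · exact ⟨1, one_ne_zero, by simp, fun V' _ => one_mem _, fun h' => by
        simpa using not_not.1 (not_and.1 hV h')⟩
  choose b b0 b1 b2 b3 using this
  set S := (h.noe.fin f).toFinset
  rw [← inv_mul_cancel_left₀ (prod_ne_zero_iff.2 fun V (_ : V ∈ S) => b0 V) f]
  refine mul_mem (by rw [← prod_inv_distrib]; exact prod_mem fun V _ => b1 V)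
    (hI _ (h.noe.int _ fun V hV => ?_))
  by_cases hS : V ∈ S
  · rw [← prod_erase_mul _ _ hS, mul_assoc]
    exact mul_mem (prod_mem fun V' _ => b2 V' V hV) (b3 V hV)
  · exact mul_mem (prod_mem fun V' _ => b2 V' V hV) (by simpa [S, hV] using hS)

end Aux

theorem sW (h1 : SDual) (h2 : SNorm) (h3 : SNoe) (h4 : SWv) : SW := by
  intro t a M n w Θ PP K _ _ U z u m J γ E gk mp tk hS
  classical
  obtain ⟨n', W, z', π, k, hW, hz', hk, hx⟩ := hS
  obtain rfl : m = k := by exact_mod_cast tk.deg.symm.trans hk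
  choose! x1 x2 x3 s r g e s1 s2 s3 s4 s5 using hx
  choose! d hd using fun x hx => h1 n' W K z' x m (s x) hz' hx hk (s1 x hx)
  choose! A A1 A2 using fun x hx => wMat (hd x hx) tk.ind (r x)
  have big : ∀ (h : Fin m → K) (N : ℕ), AlgebraicIndependent ℂ h → (∀ x ∈ W, ∀ i : Fin (m + 1),
      (A x).det ^ (N + 1) * (Fin.cons 1 h : Fin (m + 1) → K) i ∈ locRing z' x) → LogGT U z :=
    fun h N hh H => ⟨n', W, z', π, m, N + 1, E, Fin.cons 1 h, hW, hz', hk, tk.ind, N.succ_pos,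
      by simp, by simpa using hh, fun x hx => ⟨x1 x hx, x2 x hx, x3 x hx, s x, r x, g x, e x,
        s1 x hx, s2 x hx, s3 x hx, s4 x hx, s5 x hx, fun i => by
          rw [← A1 x hx, mul_pow, mul_right_comm]
          exact Submodule.smul_mem (pluri z' E (N + 1) x) ⟨_, H x hx i⟩
            (Submodule.subset_span ⟨fun _ l => s x l, fun _ l => (s x l).2, by simp⟩)⟩⟩
  rcases m with _ | m
  · refine ⟨∅, by simp, by simp, by simp, by simp, by simp, fun h _ hh => big h 0 hh ?_⟩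
    intro x _ i
    obtain rfl : i = 0 := Fin.fin_one_eq_zero i
    simp
  choose y hy using wY h3 hz' hk
  have hy' : ∀ x ∈ W, ∀ i, x.rep i ≠ 0 → WY z' i (y i) := fun x hx i hi =>
    hy i (wNe (wZero hz' hx) hi)
  have hI : ∀ x ∈ W, ∀ i, x.rep i ≠ 0 → ∀ f ∈ IC ℂ (y i), f ∈ locRing z' x := fun x hx i hi =>
    have := x1 x hx
    (hy' x hx i hi).le h2 hz' hx hi (hd x hx) (s1 x hx)
  have hu : OnG w Θ u := by
    obtain ⟨β, hβ⟩ := mp.ch
    exact ⟨fun o => ⟨β o, hβ o⟩, mp.hu⟩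
  have key : ∀ x ∈ W, ∀ i, x.rep i ≠ 0 → ∀ V, Dv ℂ (y i) V → (∀ f ∈ locRing z' x, f ∈ V) →
      (∀ l, ∀ f ∈ V, ∑ j, A x l j * E j f ∈ V) ∧ (∀ l i, ∑ j, A x l j * γ j i ∈ V) ∧
      (∀ l j, A x l j ∈ V) ∧ (Cen U z V ∨ ∀ l f, (∑ j, A x l j * E j f) / f ∈ V) := by
    intro x hx i hi V hV hO
    obtain ⟨a1, a2⟩ := h4 K _ _ (s x) (d x) (r x) V (hd x hx) ((hy' x hx i hi).noe.dvr V hV) hO
      fun f hf => by
        obtain ⟨p, hp, q, hq, e⟩ := (hy' x hx i hi).noe.loc V hV f hf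
        exact ⟨p, hI x hx i hi p hp, q, hI x hx i hi q hq, e⟩
    have a3 : ∀ l, ∀ f ∈ V, ∑ j, A x l j * E j f ∈ V := fun l f hf => by
      rw [← A2 x hx]
      refine mul_mem ?_ (a1 l f hf)
      split_ifs
      · exact hO _ (s x l).2
      · exact one_mem V
    have a4 : (∃ p ∈ U, ∀ f ∈ locRing z p, f ∈ V) ∨ ∀ l f, (∑ j, A x l j * E j f) / f ∈ V := by
      refine a2.imp (fun h => ?_) fun h l f => A2 x hx l f ▸ h l f
      obtain ⟨p, p1, p2, p3, p4⟩ := wCentre hW hz' hx V hO (s3 x hx) (s4 x hx)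
        (prod_mem fun j (_ : j ∈ r x) => (s x j).2) (by rw [map_prod]; exact prod_eq_one h)
      exact ⟨π p, (s5 x hx p p1 p3).2.2 p4, fun f hf => p2 f (x3 p p1 f hf).1⟩
    have a5 : ∀ l i, ∑ j, A x l j * γ j i ∈ V := fun l =>
      wVel gk.val hu tk V (fun c => hO _ (algebraMap_mem _ c)) _ (a3 l) (a4.imp
        (fun ⟨p, p1, p2⟩ o => let ⟨b, b1, b2, b3⟩ := mp.hr p p1 o
          ⟨b, b1, b2, fun c => p2 _ (b3 c)⟩) fun h => h l)
    exact ⟨a3, a5, fun l j => by simpa [tk.ech] using a5 l (J j),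
      a4.imp (fun ⟨p, p1, p2⟩ => wCen mp.var mp.gen p1 V p2) id⟩
  let G : Set (ValuationSubring K) := {V | ∃ x ∈ W, ∃ i, x.rep i ≠ 0 ∧ Dv ℂ (y i) V ∧
    (∀ f ∈ locRing z' x, f ∈ V) ∧ V.valuation (A x).det = 1}
  have fin : ∀ f : K, {V | (∃ i, z' i ≠ 0 ∧ Dv ℂ (y i) V) ∧ f ∉ V}.Finite := fun f =>
    (Set.finite_iUnion fun i : {i // z' i ≠ 0} => (hy i i.2).noe.fin f).subset
      fun V ⟨⟨i, a, b⟩, c⟩ => Set.mem_iUnion.2 ⟨⟨i, a⟩, b, c⟩
  refine ⟨G, ?_, ?_, ?_, ?_, fun f => (fin f).subset ?_, fun h hG hh => ?_⟩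
  · rintro V ⟨x, hx, i, hi, hV, hO, -⟩
    exact ⟨(hy' x hx i hi).noe.dvr V hV, fun c => hO _ (algebraMap_mem _ c)⟩
  · rintro V ⟨x, hx, i, hi, hV, hO, hA⟩ j f hf
    obtain ⟨a1, -, a3, -⟩ := key x hx i hi V hV hO
    exact wCramer V _ a3 hA (fun j => E j f) (fun l => a1 l f hf) j
  · rintro V ⟨x, hx, i, hi, hV, hO, hA⟩ j i'
    obtain ⟨-, a2, a3, -⟩ := key x hx i hi V hV hO
    exact wCramer V _ a3 hA (fun j => γ j i') (fun l => a2 l i') j
  · rintro V ⟨x, hx, i, hi, hV, hO, hA⟩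
    obtain ⟨-, -, a3, a4⟩ := key x hx i hi V hV hO
    exact a4.imp id fun h j f => wCramer V _ a3 hA (fun j => E j f / f)
      (fun l => by simpa only [sum_div, mul_div_assoc] using h l f) j
  · rintro V ⟨⟨x, hx, i, hi, hV, -⟩, hf⟩
    exact ⟨⟨i, wNe (wZero hz' hx) hi, hV⟩, hf⟩
  have : ∀ f : K, ∃ N : ℕ, ∀ i, z' i ≠ 0 → ∀ V, Dv ℂ (y i) V → ∀ q, V.valuation q < 1 →
      ∀ N', N ≤ N' → q ^ N' * f ∈ V := fun f => by
    have : ∀ V : ValuationSubring K, ∃ N : ℕ, IsDiscreteValuationRing V → ∀ q, V.valuation q < 1 →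
        ∀ N', N ≤ N' → q ^ N' * f ∈ V := fun V => by
      by_cases hV : IsDiscreteValuationRing V
      · exact (wPow V f).imp fun _ h _ => h
      · exact ⟨0, fun h => absurd h hV⟩
    choose N hN using this
    refine ⟨(fin f).toFinset.sup N, fun i hi V hV q hq N' h' => ?_⟩
    by_cases hf : f ∈ V
    · exact mul_mem (pow_mem ((V.valuation_le_one_iff _).1 hq.le) _) hf
    · exact hN V ((hy i hi).noe.dvr V hV) q hq N'
        ((le_sup ((fin f).mem_toFinset.2 ⟨⟨i, hi, hV⟩, hf⟩)).trans h')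
  choose N hN using this
  refine big h (univ.sup fun j => N ((Fin.cons 1 h : Fin (m + 2) → K) j)) hh fun x hx j => ?_
  obtain ⟨i, hi⟩ : ∃ i, x.rep i ≠ 0 := Function.ne_iff.1 x.rep_nonzero
  refine (hy' x hx i hi).reg hz' hx hi (hI x hx i hi) _ fun V hV hO => ?_
  have a1 : (A x).det ∈ V := det_mem V.toSubring _ (key x hx i hi V hV hO).2.2.1
  rcases ((V.valuation_le_one_iff _).2 a1).eq_or_lt with a2 | a2
  · refine mul_mem (pow_mem a1 _) (j.cases (one_mem V) fun j => ?_)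
    exact hG j V ⟨x, hx, i, hi, hV, hO, a2⟩
  · exact hN _ i (wNe (wZero hz' hx) hi) V hV _ a2 _ (Nat.le_succ_of_le
      (le_sup (f := fun j => N ((Fin.cons 1 h : Fin (m + 2) → K) j)) (mem_univ j)))

end Pool.Agent.MP_c69980_ag.H43
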