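import Pool.Agent.MP_c69980_ag.H43.Spec10
import Pool.Agent.MP_c69980_ag.S74.GKk

/-!
Descent of the unramified cover of the generic leaf to a countable field.
-/

set_option autoImplicit false

namespace Pool.Agent.MP_c69980_ag.H43

open MvPolynomial H60 Finset

section Int
variable {R A : Type} [CommRing R] [CommRing A] [Algebra R A] {x : A}

lemma descInt1 (h : IsIntegral R x) :
    ∃ (N : ℕ) (c : Fin N → R), x ^ N = ∑ i, algebraMap R A (c i) * x ^ (i : ℕ) := by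
  obtain ⟨p, p1, p2⟩ := h
  refine ⟨p.natDegree, fun i => -p.coeff i, ?_⟩
  rw [p1.as_sum, ← Polynomial.aeval_def, ← Fin.sum_univ_eq_sum_range
    fun i => Polynomial.C (p.coeff i) * Polynomial.X ^ i] at p2
  simpa [add_eq_zero_iff_eq_neg] using p2

lemma descInt2 {ι : Type} [Fintype ι] {N : ℕ} (c : ι → R) (e : ι → ℕ) (he : ∀ j, e j < N)
    (h : x ^ N = ∑ j, algebraMap R A (c j) * x ^ e j) : IsIntegral R x := by
  refine ⟨Polynomial.X ^ N - ∑ j, Polynomial.C (c j) * Polynomial.X ^ e j,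
    Polynomial.monic_X_pow_sub ((Polynomial.degree_sum_le _ _).trans_lt
      ((Finset.sup_lt_iff (WithBot.bot_lt_coe N)).2 fun j _ =>
        (Polynomial.degree_C_mul_X_pow_le _ _).trans_lt (WithBot.coe_lt_coe.2 (he j)))), ?_⟩
  rw [← Polynomial.aeval_def]
  simp [h]

end Int

lemma descScale {n M : ℕ} {H : MvPolynomial (Fin n ⊕ Fin M) ℂ} {d e : ℕ} (h : BiH H d e)
    {A : Type} [CommRing A] [Algebra ℂ A] (z : Fin n → A) (u : Fin M → A) (l l' : A) :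
    aeval (Sum.elim (fun i => z i * l) fun i => u i * l') H =
      l ^ d * l' ^ e * aeval (Sum.elim z u) H := by
  rw [aeval_def, eval₂_eq', aeval_def, eval₂_eq', mul_sum]
  refine sum_congr rfl fun m hm => ?_
  have h1 := h (mem_support_iff.1 hm)
  rw [Finsupp.weight_apply, Finsupp.sum_fintype _ _ (by simp), Fintype.sum_sum_type] at h1
  have h2 : ∑ i, m (Sum.inl i) = d := by simpa [Prod.fst_sum] using congrArg Prod.fst h1
  have h3 : ∑ i, m (Sum.inr i) = e := by simpa [Prod.snd_sum] using congrArg Prod.snd h1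
  simp only [Fintype.prod_sum_type, Sum.elim_inl, Sum.elim_inr, mul_pow, prod_mul_distrib,
    prod_pow_eq_pow_sum, h2, h3]
  ring

section Tr
variable {K : Type} [Field K] {Ω₀ : Subfield K} {φ : Ω₀ →+* ℂ} {x x' : K} {y y' : ℂ}

lemma descOne : GKkR φ 1 1 := ⟨one_mem _, map_one φ⟩

lemma descPow (h : GKkR φ x y) (n : ℕ) : GKkR φ (x ^ n) (y ^ n) := by
  induction n with
  | zero => simpa using descOne
  | succ n ih => simpa only [pow_succ] using ih.mul h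

lemma descDiv (h : GKkR φ x y) (h' : GKkR φ x' y') : GKkR φ (x / x') (y / y') := by
  obtain ⟨h, rfl⟩ := h
  obtain ⟨h', rfl⟩ := h'
  exact ⟨div_mem h h', map_div₀ φ ⟨x, h⟩ ⟨x', h'⟩⟩

lemma descZero (h : GKkR φ x y) : x = 0 ↔ y = 0 :=
  ⟨fun e => h.fn (e ▸ GKkR.zero), fun e => h.inj (e ▸ GKkR.zero)⟩

variable [Algebra ℂ K] {F : IntermediateField ℂ K}

/-- The image of the constants. -/
noncomputable def descF (F : IntermediateField ℂ K) (φ : Ω₀ →+* ℂ) : Subfield ℂ :=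
  (F.toSubfield.comap Ω₀.subtype).map φ

lemma descF_mem : y ∈ descF F φ ↔ ∃ x ∈ F, GKkR φ x y :=
  ⟨fun ⟨x, h, e⟩ => ⟨x, h, x.2, e⟩, fun ⟨x, h, h', e⟩ => ⟨⟨x, h'⟩, h, e⟩⟩

lemma descPoly {σ : Type} (P : MvPolynomial σ F) (hP : ∀ α, ((coeff α P : F) : K) ∈ Ω₀)
    (P0 : P ≠ 0) : ∃ P₀ : MvPolynomial σ ℂ, Cf (descF F φ) P₀ ∧ P₀ ≠ 0 ∧
      ∀ (v : σ → K) (v₀ : σ → ℂ), (∀ i, GKkR φ (v i) (v₀ i)) → GKkR φ (aeval v P) (eval v₀ P₀) := by
  let F₁ : Subfield Ω₀ := F.toSubfield.comap Ω₀.subtype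
  let j : F₁ →+* F := (Ω₀.subtype.comp F₁.subtype).codRestrict F fun z => z.2
  obtain ⟨Q, rfl⟩ : P ∈ Set.range (map j) := by
    refine mem_range_map_iff_coeffs_subset.2 fun z hz => ?_
    obtain ⟨m, -, rfl⟩ := mem_coeffs_iff.1 hz
    exact ⟨⟨⟨_, hP m⟩, (coeff m P).2⟩, rfl⟩
  refine ⟨map (φ.comp F₁.subtype) Q, fun α =>
    ⟨(coeff α Q).1, (coeff α Q).2, (coeff_map (φ.comp F₁.subtype) _ _).symm⟩,
    fun e => P0 (by
      rw [(map_eq_zero_iff _ (map_injective _ (φ.comp F₁.subtype).injective)).1 e, map_zero]),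
    fun v v₀ hv => ?_⟩
  clear P0 hP
  induction Q using MvPolynomial.induction_on with
  | C c => rw [map_C, map_C, aeval_C, eval_C]; exact ⟨c.1.2, rfl⟩
  | add p q hp hq => simpa only [map_add] using hp.add hq
  | mul_X p i hp => simpa only [map_mul, map_X, aeval_X, eval_X] using hp.mul (hv i)

variable {ι : Type} {v : ι → K} {v₀ : ι → ℂ}

/-- Integrality goes up. -/
lemma descUp (hv : ∀ i, GKkR φ (v i) (v₀ i)) (h : GKkR φ x y)
    (hy : IsIntegral (RA (descF F φ) v₀) y) : IsIntegral (RF F v) x := by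
  have key : ∀ c ∈ RA (descF F φ) v₀, ∃ r ∈ RF F v, GKkR φ r c := fun c hc => by
    induction hc using Algebra.adjoin_induction with
    | mem c h => obtain ⟨i, rfl⟩ := h; exact ⟨v i, Algebra.subset_adjoin ⟨i, rfl⟩, hv i⟩
    | algebraMap c =>
      obtain ⟨r, r1, r2⟩ := descF_mem.1 c.2
      exact ⟨r, (RF F v).algebraMap_mem ⟨r, r1⟩, r2⟩
    | add _ _ _ _ a b =>
      obtain ⟨r, r1, r2⟩ := a
      obtain ⟨r', r3, r4⟩ := b
      exact ⟨_, add_mem r1 r3, r2.add r4⟩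
    | mul _ _ _ _ a b =>
      obtain ⟨r, r1, r2⟩ := a
      obtain ⟨r', r3, r4⟩ := b
      exact ⟨_, mul_mem r1 r3, r2.mul r4⟩
  obtain ⟨N, c, e⟩ := descInt1 hy
  choose r r1 r2 using fun i => key _ (c i).2
  exact descInt2 (fun i => ⟨r i, r1 i⟩) (fun i : Fin N => i) (fun i => i.2)
    ((descPow h N).inj (e ▸ GKkR.sum _ fun i => (r2 i).mul (descPow h i)))

/-- Integrality goes down. -/
lemma descDown (h2 : SLdK) {κ : Type} {d : κ → Derivation ℂ K K}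
    (hd : ∀ x, x ∈ F ↔ ∀ l, d l x = 0) (hΩ : ∀ l, ∀ x ∈ Ω₀, d l x ∈ Ω₀)
    (hv : ∀ i, GKkR φ (v i) (v₀ i)) (h : GKkR φ x y) (hx : IsIntegral (RF F v) x) :
    IsIntegral (RA (descF F φ) v₀) y := by
  obtain ⟨N, c, e⟩ := descInt1 hx
  let A : Set K := {s | ∃ i < N, ∃ r, ∃ r₀ ∈ RA (descF F φ) v₀, GKkR φ r r₀ ∧ s = r * x ^ i}
  have a1 : ∀ r ∈ Submonoid.closure (Set.range v), ∃ r₀ ∈ RA (descF F φ) v₀, GKkR φ r r₀ :=
    fun r hr => by
      induction hr using Submonoid.closure_induction with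
      | mem c h => obtain ⟨i, rfl⟩ := h; exact ⟨_, gen_mem v₀ i, hv i⟩
      | one => exact ⟨1, one_mem _, descOne⟩
      | mul _ _ _ _ a b =>
        obtain ⟨r, r1, r2⟩ := a
        obtain ⟨r', r3, r4⟩ := b
        exact ⟨_, mul_mem r1 r3, r2.mul r4⟩
  have a2 : ∀ i < N, ∀ r ∈ Submodule.span F (Submonoid.closure (Set.range v) : Set K),
      r * x ^ i ∈ Submodule.span F A := fun i hi r hr => by
    induction hr using Submodule.span_induction with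
    | mem r h =>
      obtain ⟨r₀, r1, r2⟩ := a1 r h
      exact Submodule.subset_span ⟨i, hi, r, r₀, r1, r2, rfl⟩
    | zero => simp
    | add _ _ _ _ a b => rw [add_mul]; exact add_mem a b
    | smul c _ _ a => rw [smul_mul_assoc]; exact Submodule.smul_mem _ c a
  obtain ⟨n, a, s, hs⟩ := Submodule.mem_span_set'.1 (show x ^ N ∈ Submodule.span F A by
    rw [e]
    exact sum_mem fun i _ => a2 i i.2 _ (by rw [← Algebra.adjoin_eq_span]; exact (c i).2))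
  choose i hi r r₀ r1 r2 r3 using fun j => (s j).2
  have r4 := fun j => (r2 j).mul (descPow h (i j))
  obtain ⟨a', b1, b2⟩ := h2 K κ (fun l => (d l).restrictScalars ℤ) Ω₀ hΩ n (fun j => s j)
    (fun j => a j) (x ^ N) (fun j => r3 j ▸ (r4 j).1) (descPow h N).1
    (fun j l => (hd _).1 (a j).2 l) hs.symm
  have b3 : ∀ j, GKkR φ (a' j) (φ ⟨a' j, (b1 j).1⟩) := fun j => ⟨_, rfl⟩
  refine descInt2 (fun j => ⟨_, mul_mem ((RA (descF F φ) v₀).algebraMap_mem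
    ⟨_, descF_mem.2 ⟨_, (hd _).2 (b1 j).2, b3 j⟩⟩) (r1 j)⟩) i hi ((descPow h N).fn ?_)
  rw [b2]
  exact GKkR.sum _ fun j => by
    rw [r3, ← mul_assoc]
    exact ((b3 j).mul (r2 j)).mul (descPow h (i j))

end Tr

theorem sDesc (h1 : SDown) (h2 : SLdK) (h3 : SStab) : SDesc := by
  intro t a M n w Θ PP K _ _ U z u F m lam d f s gd gk z0 et hs
  classical
  obtain ⟨j₀, hj₀⟩ : ∃ j, z j ≠ 0 := Function.ne_iff.1 z0
  obtain ⟨β₀, hβ₀⟩ := exists_ch et.on.blk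
  have c1 : ∀ (β : Cht M t) (y : Fin m → CI M t), ∃ (P : MvPolynomial (Fin m) F) (N : ℕ)
      (ρ b : Fin N → K) (H : Fin N → PR n) (e : Fin N → ℕ) (j : Fin N → Fin n), Ch w β u → P ≠ 0 ∧
      aeval (co β u ∘ y) P = ∑ i, ρ i * b i ∧ ∀ i, IsIntegral (RF F (co β u)) (ρ i) ∧
        Wit U z {x | IsIntegral (RF F (co β u)) x} (b i) (H i) (e i) (j i) := fun β y => by
    by_cases hβ : Ch w β u
    · obtain ⟨P, N, ρ, b, H, e, j, h⟩ := et.cod β hβ y
      exact ⟨P, N, ρ, b, H, e, j, fun _ => h⟩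
    · exact ⟨0, 0, 0, 0, 0, 0, Fin.elim0, fun h => absurd h hβ⟩
  choose P N ρ b H e j hc using c1
  have c2 : ∀ c b : Fin (m + 2) → Fin M, ∃ P : MvPolynomial (Fin (m + 2)) F,
      aeval (fun i => u (c i) / u (b i)) P = 0 ∧ P ≠ 0 := fun c b => by
    have : ¬ AlgebraicIndependent F fun i => u (c i) / u (b i) := fun h => by
      have := h.cardinalMk_le_trdeg
      rw [← et.tb.cardinalMk_eq_trdeg] at this
      simp only [Cardinal.mk_fin, Nat.cast_le] at this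
      omega
    simpa only [algebraicIndependent_iff, not_forall, exists_prop] using this
  choose Q Q1 Q0 using c2
  have c3 : ∀ x : K, ∃ q, q ≠ 0 ∧ IsIntegral (RF F (co β₀ u)) q ∧
      IsIntegral (RF F (co β₀ u)) (q * x) := fun x => by
    have a1 : ∀ y ∈ K0 u, y ∈ IntermediateField.adjoin F (Set.range (co β₀ u)) :=
      IntermediateField.adjoin_le_iff
        (T := (IntermediateField.adjoin F (Set.range (co β₀ u))).restrictScalars ℂ) |>.2 (by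
          rintro _ ⟨c, b, rfl⟩
          rw [div_eq_co hβ₀]
          exact div_mem (IntermediateField.subset_adjoin F _ ⟨_, rfl⟩)
            (IntermediateField.subset_adjoin F _ ⟨_, rfl⟩))
    let i : K0 u →+* IntermediateField.adjoin F (Set.range (co β₀ u)) :=
      (algebraMap (K0 u) K).codRestrict _ fun y => a1 y y.2
    obtain ⟨q, q0, q1⟩ := (IntermediateField.isAlgebraic_adjoin_iff.1
      ((et.hf.isAlgebraic x).ringHom_of_comp_eq i (RingHom.id K) i.injective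
        rfl)).exists_integral_multiple
    exact ⟨q, fun e => q0 (Subtype.ext e), isIntegral_algebraMap (x := q), q1⟩
  choose q q0 q1 q2 using c3
  obtain ⟨S, S1, S2⟩ := (Submodule.fg_span_iff_fg_span_finset_subset
    (R := MvPolynomial (Fin n ⊕ Fin M) ℂ)
    {H | ∃ d e, BiH H d e ∧ aeval (Sum.elim z u) H = 0}).1 (IsNoetherian.noetherian _)
  obtain ⟨k, kc, G, g2, g3, g4, g5, g6⟩ := (gd.and (gk.ev.and (Ev.and (P := fun k => s ⊆ k)
    ⟨s, hs, fun _ h => h⟩ ((Ev.all fun l => Ev.all fun i => ev_mem (lam l i)).and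
    ((Ev.all fun β => Ev.all fun y => Ev.all fun i => ev_cf (H β y i)).and
    (Ev.all fun A : S => ev_cf A.1)))))).exists
  let T₀ : Set K := Set.range (fun i => z i / z j₀) ∪
    ⋃ β, ⋃ y, (Set.range (ρ β y) ∪ Set.range (b β y))
  have T1 : T₀.Finite := (Set.finite_range _).union (Set.finite_iUnion fun β =>
    Set.finite_iUnion fun y => (Set.finite_range _).union (Set.finite_range _))
  obtain ⟨Ω₀, φ, D, p, Ωc, hT, e1, -, e2, e3⟩ := h1 t a M w Θ k K (Fin (m + 1)) Unit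
    (fun l => (d l).restrictScalars ℤ) (fun _ => u)
    ((T₀ ∪ q '' T₀) ∪ (Set.range (fun x : _ × _ × _ => ((coeff x.2.2 (P x.1 x.2.1) : F) : K)) ∪
      Set.range fun x : _ × _ × _ => ((coeff x.2.2 (Q x.1 x.2.1) : F) : K)))
    kc G.clh (fun l c _ => (d l).map_algebraMap c) (fun _ => et.on)
    ((T1.union (T1.image q)).countable.union
      ((Set.countable_range _).union (Set.countable_range _)))
  have gp : GKkP Θ k φ u (p ()) := ⟨e1, e3 ()⟩
  have hD : ∀ l x y, GKkR φ x y → GKkR φ (d l x) (D l y) := by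
    rintro l x _ ⟨h, rfl⟩
    obtain ⟨h', e⟩ := e2 l ⟨x, h⟩
    exact ⟨h', e.symm⟩
  have hco : ∀ (β : Cht M t) x, GKkR φ (co β u x) (co β (Θ (p ())) x) := fun β x => gp.pt _ _
  have dn : ∀ (β : Cht M t) {x y}, GKkR φ x y → IsIntegral (RF F (co β u)) x →
      IsIntegral (RA (descF F φ) (co β (Θ (p ())))) y := fun β x y =>
    descDown h2 et.cst (fun l x hx => (hD l x _ ⟨hx, rfl⟩).1) (hco β)
  have hch : ∀ β, Ch w β (Θ (p ())) → Ch w β u := fun β h o => ⟨(h o).1, fun e =>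
    div_ne_zero (h o).2 (h o).2 ((descZero (gp.pt (β o) (β o))).1 (by simp [e]))⟩
  have hβ₁ := gp.ch hβ₀
  obtain ⟨ψ, hψ⟩ : ∃ ψ : K → ℂ, ∀ x ∈ Ω₀, GKkR φ x (ψ x) :=
    ⟨fun x => if h : x ∈ Ω₀ then φ ⟨x, h⟩ else 0, fun x h => ⟨h, by simp [h]⟩⟩
  have t0 : ∀ x ∈ T₀, GKkR φ x (ψ x) := fun x h => hψ x (hT (Or.inl (Or.inl h)))
  have kF : k ≤ descF F φ := fun c hc => descF_mem.2 ⟨_, F.algebraMap_mem c, e1 c hc⟩
  have kill : ∀ l, Kill (descF F φ) (D l) := fun l c hc => by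
    obtain ⟨x, x1, x2⟩ := descF_mem.1 hc
    exact (descZero (hD l x c x2)).1 ((et.cst x).1 x1 l)
  have tan : ∀ l, Tan Θ (D l) (p ()) (lam l) := fun l =>
    gp.tan G (fun i => e1 _ (g4 l i)) (hD l) hβ₀ (et.vel l β₀ hβ₀)
  have RL : ∀ β : Cht M t, ∀ x ∈ RA (descF F φ) (co β (Θ (p ()))),
      x ∈ FL (descF F φ) (Θ (p ())) := fun β => RA_le_field (le_FL _ _) fun x => rat_FL _ _ (co_mem β _ x)
  have alg : ∀ x ∈ T₀, IsAlgebraic (FL (descF F φ) (Θ (p ()))) (ψ x) := fun x hx => by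
    have a1 := hψ _ (hT (Or.inl (Or.inr ⟨x, hx, rfl⟩)))
    have a2 : ∀ {x y}, GKkR φ x y → IsIntegral (RF F (co β₀ u)) x →
        IsAlgebraic (FL (descF F φ) (Θ (p ()))) y := fun h h' => ((dn β₀ h h').map_of_comp_eq
      ((RA _ _).val.toRingHom.codRestrict _ fun x => RL β₀ x x.2) (RingHom.id ℂ) rfl).isAlgebraic
    rw [← inv_mul_cancel_left₀ (mt (descZero a1).2 (q0 x)) (ψ x)]
    exact (a2 a1 (q1 x)).inv.mul (a2 (a1.mul (t0 x hx)) (q2 x))
  set L := Subfield.closure (FL (descF F φ) (Θ (p ())) ∪ (T1.image ψ).toFinset : Set ℂ) with hL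
  have L1 : FL (descF F φ) (Θ (p ())) ≤ L := fun x h => Subfield.subset_closure (Or.inl h)
  have L2 : ∀ x ∈ T₀, ψ x ∈ L := fun x h =>
    Subfield.subset_closure (Or.inr ((T1.image ψ).mem_toFinset.2 ⟨x, h, rfl⟩))
  have L3 : L ≤ φ.fieldRange := Subfield.closure_le.2 (Set.union_subset
    (FL_le (fun c hc => let ⟨_, _, h⟩ := descF_mem.1 hc; h.mem)
      (by rintro _ ⟨c, b, rfl⟩; exact (gp.pt c b).mem))
    fun y hy => by
      obtain ⟨x, hx, rfl⟩ := (T1.image ψ).mem_toFinset.1 hy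
      exact (t0 x hx).mem)
  have pk : ∀ l, Pres (D l) L := fun l => by
    have a1 : ∀ x ∈ L, IsAlgebraic (FL (descF F φ) (Θ (p ()))) x → D l x ∈ L := by
      rw [FL_chart hβ₁]
      refine (h3 (D l)).1 _ L (fun x hx => L1 (FL_chart hβ₁ _ ▸ Subfield.subset_closure hx)) ?_
      rintro x (hx | ⟨x, rfl⟩)
      · rw [kill l x hx]; exact zero_mem L
      · rw [(G.tan_iff hβ₁).1 (tan l)]
        exact L1 (RL β₀ _ (vf_mem (G.cf β₀) kF (fun i => kF (g4 l i)) _ x))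
    refine fun x hx => (h3 (D l)).1 _ L Subfield.subset_closure ?_ x hx
      (isAlgebraic_algebraMap (⟨x, hx⟩ : L))
    rintro x (hx | hx)
    · exact a1 x (L1 hx) (isAlgebraic_algebraMap (⟨x, hx⟩ : FL (descF F φ) (Θ (p ()))))
    · obtain ⟨x, h, rfl⟩ := (T1.image ψ).mem_toFinset.1 hx
      exact a1 _ (L2 x h) (alg x h)
  have zT : ∀ i, z i / z j₀ ∈ T₀ := fun i => Or.inl ⟨i, rfl⟩
  refine ⟨k, descF F φ, L, p (), D, fun i => ψ (z i / z j₀), g3, G, g2, kF, ?_,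
    ⟨g4, et.ind, kill, tan, ?_⟩, ⟨_, fun y hy => ?_, rfl⟩, pk, fun β hβ l y hy => ⟨pk l y hy.1, ?_⟩,
    fun A d e hA kA => ?_, fun y y' h A d e hA h0 => ?_, fun β hβ y => ?_⟩
  · exact (Set.countable_range φ).mono (by rintro _ ⟨x, -, rfl⟩; exact ⟨x, rfl⟩)
  · rintro ⟨x, hx, hi⟩
    choose c b hx using hx
    obtain ⟨P₀, a1, a2, a3⟩ := descPoly (φ := φ) (Q c b)
      (fun α => hT (Or.inr (Or.inr ⟨(c, b, α), rfl⟩))) (Q0 c b)
    obtain ⟨P', rfl⟩ := cf_iff.1 a1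
    have a4 := (descZero (a3 _ x fun i => hx i ▸ gp.pt (c i) (b i))).1 (Q1 c b)
    rw [eval_map_sub] at a4
    exact a2 (by rw [algebraicIndependent_iff.1 hi P' a4, map_zero])
  · obtain ⟨x, h, rfl⟩ := (T1.image ψ).mem_toFinset.1 hy
    exact alg x h
  · obtain ⟨x, rfl⟩ := L3 hy.1
    exact dn β (hD l x _ ⟨x.2, rfl⟩) (et.pres β (hch β hβ) l x (descUp (hco β) ⟨x.2, rfl⟩ hy.2))
  · have a1 := descZero (GKkR.aeval e1 kA
      (y := Sum.elim (fun i => z i * (z j₀)⁻¹) fun i => u i * (u (β₀ none))⁻¹)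
      (u := Sum.elim (fun i => ψ (z i / z j₀) * 1) fun i => Θ (p ()) i * (Θ (p ()) (β₀ none))⁻¹)
      (by
        rintro (i | i)
        · simpa [div_eq_mul_inv] using t0 _ (zT i)
        · simpa [div_eq_mul_inv] using gp.pt i (β₀ none)))
    rw [descScale hA, descScale hA] at a1
    simpa [hj₀, (hβ₀ none).2, (hβ₁ none).2, aeval_eq_eval] using a1
  · have a1 : A ∈ Submodule.span (MvPolynomial (Fin n ⊕ Fin M) ℂ)
        (S : Set (MvPolynomial (Fin n ⊕ Fin M) ℂ)) := by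
      rw [← S2]; exact Submodule.subset_span ⟨d, e, hA, h0⟩
    refine (Submodule.span_le (p := RingHom.ker (aeval (Sum.elim y y') : _ →ₐ[ℂ] ℂ))).2
      (fun B hB => ?_) a1
    obtain ⟨d, e, a2, a3⟩ := S1 hB
    exact h B d e a2 (g6 ⟨B, hB⟩) a3
  obtain ⟨c1, c2, c3⟩ := hc β y (hch β hβ)
  obtain ⟨P₀, a1, a2, a3⟩ := descPoly (φ := φ) (P β y)
    (fun α => hT (Or.inr (Or.inl ⟨(β, y, α), rfl⟩))) c1
  have ρT : ∀ i, ρ β y i ∈ T₀ := fun i =>
    Or.inr (Set.mem_iUnion.2 ⟨β, Set.mem_iUnion.2 ⟨y, Or.inl ⟨i, rfl⟩⟩⟩)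
  have bT : ∀ i, b β y i ∈ T₀ := fun i =>
    Or.inr (Set.mem_iUnion.2 ⟨β, Set.mem_iUnion.2 ⟨y, Or.inr ⟨i, rfl⟩⟩⟩)
  refine ⟨P₀, N β y, fun i => ψ (ρ β y i), fun i => ψ (b β y i), H β y, e β y, j β y, a2, a1,
    (a3 _ _ fun i => hco β (y i)).fn (c2 ▸ GKkR.sum _ fun i => (t0 _ (ρT i)).mul (t0 _ (bT i))),
    fun i => ⟨⟨L2 _ (ρT i), dn β (t0 _ (ρT i)) (c3 i).1⟩, g5 β y i, ?_⟩⟩
  obtain ⟨w1, w2, w3, w4, w5, w6, w7⟩ := (c3 i).2
  have a4 := GKkR.aeval e1 (g5 β y i) fun i => t0 _ (zT i)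
  have a5 : aeval (fun i => z i / z j₀) (H β y i) = aeval z (H β y i) / z j₀ ^ e β y i := by
    simp only [div_eq_inv_mul, aeval_scale w1, inv_pow]
  rw [a5] at a4
  refine ⟨w1, w2, mt (descZero (t0 _ (zT _))).2 (div_ne_zero w3 hj₀),
    mt (descZero a4).2 (div_ne_zero w4 (pow_ne_zero _ hj₀)), ⟨L2 _ (bT i), dn β (t0 _ (bT i)) w5⟩,
    fun i' => ⟨mul_mem (L2 _ (bT i)) (div_mem (L2 _ (zT _)) (L2 _ (zT _))),
      dn β ((t0 _ (bT i)).mul ?_) (w6 i')⟩,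
    mul_mem (L2 _ (bT i)) (div_mem (pow_mem (L2 _ (zT _)) _)
      ((g5 β y i).eval_mem_field (kF.trans ((le_FL _ _).trans L1)) fun i => L2 _ (zT i))),
    dn β ((t0 _ (bT i)).mul ?_) w7⟩
  · simpa only [div_div_div_cancel_right₀ hj₀] using descDiv (t0 _ (zT i')) (t0 _ (zT (j β y i)))
  · simpa only [div_pow, div_div_div_cancel_right₀ (pow_ne_zero _ hj₀)] using
      descDiv (descPow (t0 _ (zT (j β y i))) (e β y i)) a4

end Pool.Agent.MP_c69980_ag.H43
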